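import Pool.Agent.H.MP_dc9a2a_an.B

set_option linter.unusedSectionVars false

namespace Pool.Agent.H.MP_40d550_an
open Set Filter Topology BoundedContinuousFunction
open scoped Classical

variable {I : Type} [LinearOrder I] {φ : I → I →₀ ℝ}

structure Ok (φ : I → I →₀ ℝ) : Prop where
  lt : ∀ b, ∀ c ∈ (φ b).support, c < b
  l1 : ∀ b, ∑ c ∈ (φ b).support, |φ b c| ≤ 1

noncomputable def L (φ : I → I →₀ ℝ) (b : I) : (I → ℝ) →ₗ[ℝ] ℝ :=
  ∑ c ∈ (φ b).support, φ b c • LinearMap.proj c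

theorem L_ap (b : I) (x : I → ℝ) : L φ b x = ∑ c ∈ (φ b).support, φ b c * x c := by
  simp [L]

theorem sumb {A : Finset I} {μ x : I → ℝ} {C D : ℝ} (hC : 0 ≤ C) (h : ∑ c ∈ A, |μ c| ≤ D)
    (hx : ∀ c ∈ A, |x c| ≤ C) : |∑ c ∈ A, μ c * x c| ≤ D * C := by
  refine (Finset.abs_sum_le_sum_abs _ _).trans (le_trans ?_ (mul_le_mul_of_nonneg_right h hC))
  rw [Finset.sum_mul]
  exact Finset.sum_le_sum fun c hc => by
    rw [abs_mul]; exact mul_le_mul_of_nonneg_left (hx c hc) (abs_nonneg _)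

variable [WellFoundedLT I]

theorem Ok.mp (h : Ok φ) {S : Set I} {x : I → ℝ} {C : ℝ} (hC : 0 ≤ C) (h1 : ∀ b ∈ S, |x b| ≤ C)
    (h2 : ∀ b ∉ S, x b = L φ b x) (b : I) : |x b| ≤ C := by
  induction b using WellFoundedLT.induction with
  | ind b ih =>
    by_cases hb : b ∈ S
    · exact h1 b hb
    rw [h2 b hb, L_ap]
    exact (sumb hC (h.l1 b) fun c hc => ih c (h.lt b c hc)).trans_eq (one_mul C)

theorem Ok.uq (h : Ok φ) {S : Set I} {x y : I → ℝ} (h1 : ∀ b ∈ S, x b = y b)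
    (h2 : ∀ b ∉ S, x b = L φ b x) (h3 : ∀ b ∉ S, y b = L φ b y) : x = y := funext fun b =>
  sub_eq_zero.1 (abs_nonpos_iff.1 (h.mp (S := S) (x := x - y) le_rfl
    (fun b hb => by simp [h1 b hb]) (fun b hb => by rw [map_sub, ← h2 b hb, ← h3 b hb]; rfl) b))

theorem Ok.ex (h : Ok φ) (S : Set I) (x : I → ℝ) :
    ∃ y : I → ℝ, (∀ b ∈ S, y b = x b) ∧ ∀ b ∉ S, y b = L φ b y := by
  let y : I → ℝ := WellFoundedLT.fix fun b ih => if b ∈ S then x b else
    ∑ c ∈ (φ b).support, φ b c * if hc : c < b then ih c hc else 0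
  have e : ∀ b, y b = if b ∈ S then x b else
      ∑ c ∈ (φ b).support, φ b c * if c < b then y c else 0 := fun b => WellFoundedLT.fix_eq _ b
  refine ⟨y, fun b hb => by rw [e, if_pos hb], fun b hb => ?_⟩
  rw [e, if_neg hb, L_ap]
  exact Finset.sum_congr rfl fun c hc => by rw [if_pos (h.lt b c hc)]

theorem Ok.rk (h : Ok φ) : ∃ rk : I → ℕ, ∀ b, ∀ c ∈ (φ b).support, rk c < rk b := by
  let y : I → ℕ := WellFoundedLT.fix fun b ih =>
    (φ b).support.sup fun c => if hc : c < b then ih c hc + 1 else 0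
  have e : ∀ b, y b = (φ b).support.sup fun c => if c < b then y c + 1 else 0 :=
    fun b => WellFoundedLT.fix_eq _ b
  refine ⟨y, fun b c hc => ?_⟩
  rw [e b]
  refine Nat.lt_of_succ_le (le_trans ?_ (Finset.le_sup hc))
  rw [if_pos (h.lt b c hc)]

variable [TopologicalSpace I] [DiscreteTopology I]

structure Sy (φ : I → I →₀ ℝ) (R : Set I → (I →ᵇ ℝ) →L[ℝ] (I →ᵇ ℝ)) (e : I → I →ᵇ ℝ) :
    Prop extends Ok φ where
  n : ∀ S x, ‖R S x‖ ≤ ‖x‖
  r1 : ∀ S x, ∀ b ∈ S, R S x b = x b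
  r2 : ∀ S x, ∀ b ∉ S, R S x b = L φ b (R S x)
  e1 : ∀ a, e a a = 1
  e0 : ∀ a, ∀ b < a, e a b = 0
  e2 : ∀ a b, b ≠ a → e a b = L φ b (e a)

theorem Ok.sy (h : Ok φ) : ∃ R e, Sy φ R e := by
  choose y y1 y2 using h.ex
  have hb : ∀ S (x : I →ᵇ ℝ) b, ‖y S x b‖ ≤ ‖x‖ := fun S x =>
    h.mp (norm_nonneg x) (fun b hb => by rw [y1 S x b hb]; exact x.norm_coe_le_norm b) (y2 S x)
  let R0 : Set I → (I →ᵇ ℝ) →ₗ[ℝ] (I →ᵇ ℝ) := fun S =>
    { toFun := fun x => ofNormedAddCommGroupDiscrete (y S x) ‖x‖ (hb S x)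
      map_add' := fun x z => DFunLike.coe_injective (h.uq (S := S) (y := y S x + y S z)
        (fun b hb => by simp [y1 S _ b hb]) (y2 S _)
        fun b hb => by rw [map_add, ← y2 S _ b hb, ← y2 S _ b hb]; rfl)
      map_smul' := fun c x => DFunLike.coe_injective (h.uq (S := S) (y := c • y S x)
        (fun b hb => by simp [y1 S _ b hb]) (y2 S _)
        fun b hb => by rw [map_smul, ← y2 S _ b hb]; rfl) }
  have hn : ∀ S x, ‖R0 S x‖ ≤ ‖x‖ := fun S x => (norm_le (norm_nonneg x)).2 (hb S x)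
  let d : I → I →ᵇ ℝ := fun a => ofNormedAddCommGroupDiscrete (Pi.single a 1) 1 fun b => by
    rw [Pi.single_apply]; split_ifs <;> simp
  have e0 : ∀ a, ∀ b < a, y (Iic a) (d a) b = 0 := fun a b hb => by
    rw [y1 _ _ b hb.le]; simp [d, hb.ne]
  refine ⟨fun S => (R0 S).mkContinuous 1 (by simpa using hn S), fun a => R0 (Iic a) (d a), h, hn,
    fun S x => y1 S x, fun S x => y2 S x, fun a => ?_, e0, fun a b hb => ?_⟩
  · exact (y1 (Iic a) (d a) a le_rfl).trans (Pi.single_eq_same a 1)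
  · rcases hb.lt_or_gt with hb | hb
    · refine (e0 a b hb).trans ?_
      rw [L_ap, Finset.sum_eq_zero fun c hc => ?_]
      exact mul_eq_zero_of_right _ (e0 a c ((h.lt b c hc).trans hb))
    · exact y2 _ _ b hb.not_ge

variable {R : Set I → (I →ᵇ ℝ) →L[ℝ] (I →ᵇ ℝ)} {e : I → I →ᵇ ℝ}

theorem csm (c : ℝ) (x : I →ᵇ ℝ) : ⇑(c • x) = c • ⇑x := rfl

theorem Sy.mem (h : Sy φ R e) {S : Set I} {a : I} (ha : a ∈ S) : R S (e a) = e a :=
  DFunLike.coe_injective (h.uq (h.r1 S _) (h.r2 S _) fun b hb => h.e2 a b (by rintro rfl; exact hb ha))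

theorem Sy.nmem (h : Sy φ R e) {S : Set I} {a : I} (ha : ∀ b ∈ S, b < a) : R S (e a) = 0 :=
  DFunLike.coe_injective (h.uq (y := 0) (fun b hb => (h.r1 S _ b hb).trans (h.e0 a b (ha b hb)))
    (h.r2 S _) fun b _ => by simp)

theorem Sy.rc (h : Sy φ R e) {A : Set I} {y : I →ᵇ ℝ} (hy : y ∈ Submodule.span ℝ (e '' A))
    {b : I} (hb : b ∉ A) : y b = L φ b y := by
  induction hy using Submodule.span_induction with
  | mem x hx =>
    obtain ⟨a, ha, rfl⟩ := hx
    exact h.e2 a b (by rintro rfl; exact hb ha)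
  | zero => simp
  | add x y _ _ h1 h2 => simp [h1, h2]
  | smul c x _ h1 => rw [csm, map_smul, ← h1]; rfl

theorem Sy.fin (h : Sy φ R e) (A : Finset I) (x : I →ᵇ ℝ) :
    R A x ∈ Submodule.span ℝ (e '' A) := by
  induction A using Finset.induction_on_max with
  | empty =>
    have : R (∅ : Finset I) x = 0 := DFunLike.coe_injective
      (h.uq (y := 0) (S := (∅ : Finset I)) (by simp) (h.r2 _ _) (by simp))
    rw [this]
    exact zero_mem _
  | insert m A hm ih =>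
    have : R (insert m A : Finset I) x = R A x + (x m - R A x m) • e m := by
      refine DFunLike.coe_injective (h.uq (S := (insert m A : Finset I)) (fun b hb => ?_)
        (h.r2 _ _) fun b hb => ?_)
      · rw [h.r1 _ _ b hb]
        rcases Finset.mem_insert.1 hb with rfl | hb
        · simp [h.e1]
        · simp [h.e0 m b (hm b hb), h.r1 A x b hb]
      · simp only [Finset.coe_insert, mem_insert_iff, not_or] at hb
        rw [coe_add, csm, map_add, map_smul, ← h.r2 _ _ b hb.2, ← h.e2 m b hb.1]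
        rfl
    rw [this]
    exact add_mem (Submodule.span_mono (image_mono (by simp)) ih)
      (Submodule.smul_mem _ _ (Submodule.subset_span ⟨m, by simp, rfl⟩))

theorem Sy.fix (h : Sy φ R e) {A : Set I} {y : I →ᵇ ℝ} (hy : y ∈ Submodule.span ℝ (e '' A)) :
    R A y = y :=
  DFunLike.coe_injective (h.uq (h.r1 A _) (h.r2 A _) fun _ hb => h.rc hy hb)

noncomputable abbrev XX (e : I → I →ᵇ ℝ) : Submodule ℝ (I →ᵇ ℝ) :=
  (Submodule.span ℝ (range e)).topologicalClosure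

theorem memX {A : Set I} {y : I →ᵇ ℝ} (hy : y ∈ Submodule.span ℝ (e '' A)) : y ∈ XX e :=
  Submodule.le_topologicalClosure _ (Submodule.span_mono (image_subset_range _ _) hy)

theorem fsp {y : I →ᵇ ℝ} (hy : y ∈ Submodule.span ℝ (range e)) :
    ∃ A : Finset I, y ∈ Submodule.span ℝ (e '' A) := by
  obtain ⟨T, h1, h2⟩ := Submodule.mem_span_finite_of_mem_span hy
  obtain ⟨A, -, rfl⟩ := Finset.subset_set_image_iff.1 (h1.trans_eq image_univ.symm)
  exact ⟨A, by simpa using h2⟩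

theorem Sy.app (h : Sy φ R e) {E : Type} [NormedAddCommGroup E] [NormedSpace ℝ E]
    [FiniteDimensional ℝ E] (f : E →L[ℝ] (I →ᵇ ℝ)) (hf : ∀ x, f x ∈ XX e) {δ : ℝ} (hδ : 0 < δ) :
    ∃ A : Finset I, ∀ x, ‖R A (f x) - f x‖ ≤ δ * ‖x‖ := by
  have := FiniteDimensional.proper_real E
  obtain ⟨A, hA⟩ := ((isCompact_closedBall (0 : E) 1).image f.continuous).elim_directed_cover
    (fun A : Finset I => Metric.thickening (δ / 2) (Submodule.span ℝ (e '' A) : Set (I →ᵇ ℝ)))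
    (fun _ => Metric.isOpen_thickening) (by
      rintro _ ⟨x, -, rfl⟩
      obtain ⟨y, hy, hd⟩ := Metric.mem_closure_iff.1 (hf x) (δ / 2) (half_pos hδ)
      obtain ⟨A, hA⟩ := fsp hy
      exact mem_iUnion.2 ⟨A, Metric.mem_thickening_iff.2 ⟨y, hA, hd⟩⟩)
    (directed_of_isDirected_le fun A B hAB => Metric.thickening_subset_of_subset _
      (Submodule.span_mono (image_mono hAB)))
  refine ⟨A, fun x => ?_⟩
  have : ‖(R A).comp f - f‖ ≤ δ := ContinuousLinearMap.opNorm_le_of_unit_norm hδ.le fun x hx => by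
    obtain ⟨y, hy, hd⟩ := Metric.mem_thickening_iff.1 (hA ⟨x, by simp [hx], rfl⟩)
    rw [dist_eq_norm] at hd
    have a1 := h.n A (f x - y)
    rw [map_sub, h.fix hy] at a1
    have a2 := norm_sub_le_norm_sub_add_norm_sub (R A (f x)) y (f x)
    rw [norm_sub_rev y] at a2
    change ‖R A (f x) - f x‖ ≤ δ
    linarith
  exact (((R A).comp f - f).le_opNorm x).trans (mul_le_mul_of_nonneg_right this (norm_nonneg _))

end Pool.Agent.H.MP_40d550_an
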