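import Pool.Agent.H.MP_40d550_an.A

set_option linter.unusedSectionVars false

namespace Pool.Agent.H.MP_40d550_an
open Set Filter Topology BoundedContinuousFunction
open scoped Classical

variable {I : Type} [LinearOrder I] {φ : I → I →₀ ℝ} [WellFoundedLT I] [TopologicalSpace I]
  [DiscreteTopology I] {R : Set I → (I →ᵇ ℝ) →L[ℝ] (I →ᵇ ℝ)} {e : I → I →ᵇ ℝ}

def Rich (φ : I → I →₀ ℝ) : Prop :=
  ∃ lab : I → ℕ, ∀ (A : Finset I) (μ : I → ℝ), ∑ c ∈ A, |μ c| ≤ 1 → ∀ δ > 0, ∀ j, ∃ b ∉ A,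
    lab b = j ∧ ∀ x : I →ᵇ ℝ, |L φ b x - ∑ c ∈ A, μ c * x c| ≤ δ * ‖x‖

theorem ab1 {X : Type} [NormedAddCommGroup X] [NormedSpace ℝ X] (φ : X →L[ℝ] ℝ) (h : ‖φ‖ ≤ 1)
    (x : X) : |φ x| ≤ ‖x‖ :=
  (φ.le_opNorm x).trans (mul_le_of_le_one_left (norm_nonneg _) h)

theorem sg (t : ℝ) : |(SignType.sign t : ℝ)| ≤ 1 := by
  rcases SignType.sign t <;> simp

theorem l1rep (A : Finset I) (ν : (A → ℝ) →L[ℝ] ℝ) (h : ‖ν‖ ≤ 1) : ∃ μ : I → ℝ,
    ∑ c ∈ A, |μ c| ≤ 1 ∧ ∀ x : I → ℝ, ν (fun a => x a) = ∑ c ∈ A, μ c * x c := by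
  let μ : I → ℝ := fun c => ν fun a => if c = a then 1 else 0
  have e : ∀ x : I → ℝ, ν (fun a => x a) = ∑ c ∈ A, μ c * x c := fun x => by
    rw [← Finset.sum_coe_sort A]
    refine (ν.toLinearMap.pi_apply_eq_sum_univ _).trans (Finset.sum_congr rfl fun a _ => ?_)
    simp only [μ, Subtype.ext_iff, smul_eq_mul, mul_comm]
    rfl
  refine ⟨μ, ?_, e⟩
  have := e fun c => SignType.sign (μ c)
  simp only [self_mul_sign] at this
  rw [← this]
  exact (le_abs_self _).trans ((ab1 ν h _).trans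
    ((pi_norm_le_iff_of_nonneg zero_le_one).2 fun a => sg _))

variable {F : Type} [NormedAddCommGroup F] [NormedSpace ℝ F] [FiniteDimensional ℝ F]

theorem Sy.ag (h : Sy φ R e) (hr : Rich φ) (E : Submodule ℝ F) (f : E →ₗᵢ[ℝ] XX e) {δ : ℝ}
    (h0 : 0 < δ) (h1 : δ ≤ 1) : ∃ g : F →ₗ[ℝ] XX e,
      (∀ z, (1 - δ) * ‖z‖ ≤ ‖g z‖ ∧ ‖g z‖ ≤ ‖z‖) ∧ ∀ x : E, ‖g x - f x‖ ≤ 3 * δ * ‖x‖ := by
  obtain ⟨lab, hr⟩ := hr
  let f' : E →L[ℝ] (I →ᵇ ℝ) := (XX e).subtypeL.comp f.toContinuousLinearMap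
  have nf : ∀ x, ‖f' x‖ = ‖x‖ := f.norm_map
  obtain ⟨A, hA⟩ := h.app f' (fun x => (f x).2) h0
  choose ψ p1 p2 using fun a => MP_dc9a2a_an.HB E.subtype ((evalCLM ℝ a).comp f').toLinearMap
    zero_le_one fun x => ((f' x).norm_coe_le_norm a).trans_eq ((nf x).trans (one_mul _).symm)
  obtain ⟨s, s1, s2⟩ := MP_dc9a2a_an.net (⊤ : Submodule ℝ F) h0
  obtain ⟨χ, hχ⟩ := (s.countable_toSet.insert 0).exists_eq_range (insert_nonempty _ _)
  have c1 : ∀ j, ‖χ j‖ ≤ 1 := fun j => by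
    rcases (hχ.ge ⟨j, rfl⟩ : χ j ∈ insert 0 (s : Set (F →L[ℝ] ℝ))) with h | h
    · simp [h]
    · exact s1 _ h
  choose! ι hι using fun t (ht : t ∈ s) => (hχ.le (mem_insert_of_mem _ ht) : ∃ j, χ j = t)
  let T : E →ₗ[ℝ] (A → ℝ) := LinearMap.pi fun a => ((evalCLM ℝ a.1).comp f').toLinearMap
  have hT : ∀ x, (1 - δ) * ‖x‖ ≤ ‖T x‖ := fun x => by
    have a1 : ‖R A (f' x)‖ ≤ ‖T x‖ := (norm_le (norm_nonneg _)).2 (h.mp (norm_nonneg _)
      (fun b hb => by rw [h.r1 _ _ b hb]; exact norm_le_pi_norm (T x) ⟨b, hb⟩) (h.r2 A _))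
    have a2 := norm_sub_norm_le (f' x) (R A (f' x))
    rw [norm_sub_rev, nf] at a2
    linarith [hA x]
  have : ∀ j, ∃ b ∉ A, lab b = j ∧ ∀ x : E,
      |χ j x - L φ b (R A (f' x))| ≤ 2 * δ * ‖x‖ := fun j => by
    obtain ⟨ν, n1, n2⟩ := MP_dc9a2a_an.HB T ((1 - δ) • (χ j).toLinearMap.comp E.subtype)
      zero_le_one fun x => by
        change |(1 - δ) * χ j x| ≤ _
        rw [abs_mul, abs_of_nonneg (sub_nonneg.2 h1), one_mul]
        exact (mul_le_mul_of_nonneg_left (ab1 _ (c1 j) _) (sub_nonneg.2 h1)).trans (hT x)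
    obtain ⟨μ, m1, m2⟩ := l1rep A ν n1
    obtain ⟨b, b1, b2, b3⟩ := hr A μ m1 δ h0 j
    refine ⟨b, b1, b2, fun x => ?_⟩
    have a1 := abs_le.1 ((b3 (R A (f' x))).trans (mul_le_mul_of_nonneg_left (h.n _ _) h0.le))
    rw [Finset.sum_congr rfl fun c hc => congrArg (μ c * ·) (h.r1 A (f' x) c hc)] at a1
    have a2 : ν (fun a => f' x a) = (1 - δ) * χ j x := n2 x
    have a3 := abs_le.1 (ab1 _ (c1 j) (x : F))
    rw [← m2, a2, nf] at a1
    rw [Submodule.coe_norm] at *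
    rw [abs_le]
    constructor <;> nlinarith
  choose b b1 b2 b3 using this
  let θ : I → F →L[ℝ] ℝ := fun c => if c ∈ A then ψ c else χ (lab c)
  have hθ : ∀ c, ‖θ c‖ ≤ 1 := fun c => by
    simp only [θ]
    split_ifs
    exacts [p1 c, c1 _]
  have tb : ∀ j, θ (b j) = χ j := fun j => by simp only [θ, if_neg (b1 j), b2]
  let c : F →ₗ[ℝ] (I →ᵇ ℝ) :=
    { toFun := fun z => ofNormedAddCommGroupDiscrete (fun b => θ b z) ‖z‖ fun b => ab1 _ (hθ b) z
      map_add' := fun x y => by ext; simp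
      map_smul' := fun x y => by ext; simp }
  let S : Finset I := A ∪ s.image fun t => b (ι t)
  refine ⟨((R S).toLinearMap.comp c).codRestrict _ fun z => memX (h.fin S _), fun z => ⟨?_, ?_⟩,
    fun x => ?_⟩
  · obtain ⟨t, t1, t2⟩ := s2 z trivial
    have := (R S (c z)).norm_coe_le_norm (b (ι t))
    rw [h.r1 _ _ _ (Finset.mem_union_right _ (Finset.mem_image_of_mem _ t1))] at this
    change ‖θ _ z‖ ≤ _ at this
    rw [tb, hι t t1] at this
    exact t2.trans this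
  · exact (h.n S _).trans ((norm_le (norm_nonneg _)).2 fun b => ab1 _ (hθ b) z)
  have a1 : ‖R S (c x) - R A (f' x)‖ ≤ 2 * δ * ‖x‖ := by
    refine (norm_le (by positivity)).2 (h.mp (S := S) (by positivity) (fun d hd => ?_)
      fun d hd => ?_)
    · rw [coe_sub, Pi.sub_apply, h.r1 _ _ d hd]
      change |θ d x - _| ≤ _
      rcases Finset.mem_union.1 hd with hd | hd
      · have : θ d x = f' x d := by simp only [θ, if_pos hd]; exact p2 d x
        rw [h.r1 _ _ d hd, this, sub_self, abs_zero]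
        positivity
      · obtain ⟨t, -, rfl⟩ := Finset.mem_image.1 hd
        rw [tb, h.r2 _ _ _ (b1 _)]
        exact b3 _ x
    · rw [coe_sub, map_sub, ← h.r2 _ _ d hd, ← h.r2 _ _ d fun hA => hd (Finset.mem_union_left _ hA)]
      rfl
  have a2 := norm_sub_le_norm_sub_add_norm_sub (R S (c x)) (R A (f' x)) (f' x)
  change ‖R S (c x) - f' x‖ ≤ _
  linarith [hA x]

theorem exa {X : Type} [NormedAddCommGroup X] [NormedSpace ℝ X] (E : Submodule ℝ F)
    (f : E →ₗᵢ[ℝ] X) (h : ∀ δ, 0 < δ → δ ≤ 1 → ∃ g : F →ₗ[ℝ] X,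
      (∀ z, (1 - δ) * ‖z‖ ≤ ‖g z‖ ∧ ‖g z‖ ≤ ‖z‖) ∧ ∀ x : E, ‖g x - f x‖ ≤ 3 * δ * ‖x‖) {ε : ℝ}
    (h0 : 0 < ε) : ∃ g : F →ₗ[ℝ] X, (∀ x : E, g x = f x) ∧
      ∀ z, (1 + ε)⁻¹ * ‖z‖ ≤ ‖g z‖ ∧ ‖g z‖ ≤ (1 + ε) * ‖z‖ := by
  obtain ⟨π, hπ⟩ := Submodule.ClosedComplemented.of_finiteDimensional E
  set η := ε / (1 + ε)
  have e0 : 0 < η := by positivity
  have e1 : η ≤ ε := div_le_self h0.le (by linarith)
  have e2 : (1 + ε)⁻¹ = 1 - η := by simp only [η]; field_simp; ring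
  have e3 : η ≤ 1 := (div_le_one (by positivity)).2 (by linarith)
  set δ := η / (1 + 3 * ‖π‖)
  have d0 : 0 < δ := by positivity
  have d1 : δ + 3 * δ * ‖π‖ = η := by simp only [δ]; field_simp
  have d2 : 0 ≤ 3 * δ * ‖π‖ := by positivity
  obtain ⟨g, g1, g2⟩ := h δ d0 (by linarith)
  refine ⟨g + (f.toLinearMap - g.comp E.subtype).comp π.toLinearMap, fun x => by simp [hπ],
    fun z => ?_⟩
  change _ ≤ ‖g z + (f (π z) - g (π z))‖ ∧ ‖g z + (f (π z) - g (π z))‖ ≤ _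
  have a1 := (g2 (π z)).trans (mul_le_mul_of_nonneg_left (π.le_opNorm z) (by positivity))
  have a2 := norm_add_le (g z) (f (π z) - g (π z))
  have a3 := norm_sub_le (g z + (f (π z) - g (π z))) (f (π z) - g (π z))
  rw [add_sub_cancel_right] at a3
  rw [norm_sub_rev] at a1
  rw [e2]
  have := g1 z
  constructor <;> nlinarith [norm_nonneg z]

theorem ratap (t : ℝ) {η : ℝ} (h : 0 < η) : ∃ q : ℚ, |(q : ℝ)| ≤ |t| ∧ |q - t| ≤ η := by
  rcases lt_trichotomy t 0 with ht | rfl | ht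
  · obtain ⟨q, h1, h2⟩ := exists_rat_btwn (lt_min ht (lt_add_of_pos_right t h))
    rw [lt_min_iff] at h2
    exact ⟨q, by rw [abs_of_neg ht, abs_of_neg h2.1]; linarith,
      abs_le.2 ⟨by linarith, by linarith⟩⟩
  · exact ⟨0, by simp, by simpa using h.le⟩
  · obtain ⟨q, h1, h2⟩ := exists_rat_btwn (max_lt ht (sub_lt_self t h))
    rw [max_lt_iff] at h1
    exact ⟨q, by rw [abs_of_pos ht, abs_of_pos h1.1]; linarith,
      abs_le.2 ⟨by linarith, by linarith⟩⟩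

theorem exRich [Uncountable I] (hc : ∀ a : I, (Iic a).Countable) :
    ∃ φ : I → I →₀ ℝ, Ok φ ∧ Rich φ := by
  obtain ⟨s⟩ : Nonempty (I ≃ (I →₀ ℚ) × ℕ × I) := by
    rw [← Cardinal.eq]
    have : Cardinal.aleph0 ≤ Cardinal.mk I := Cardinal.aleph0_le_mk I
    simp [this, Cardinal.mul_eq_self]
  let w : I → I →₀ ℝ := fun b => (s b).1.mapRange Rat.cast Rat.cast_zero
  let φ : I → I →₀ ℝ := fun b =>
    if (∀ c ∈ (w b).support, c < b) ∧ ∑ c ∈ (w b).support, |w b c| ≤ 1 then w b else 0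
  refine ⟨φ, ⟨fun b => ?_, fun b => ?_⟩, fun b => (s b).2.1, fun A μ hμ δ hδ j => ?_⟩
  · simp only [φ]
    split_ifs with h
    exacts [h.1, by simp]
  · simp only [φ]
    split_ifs with h
    exacts [h.2, by simp]
  choose q q1 q2 using fun c => ratap (μ c) (η := δ / (A.card + 1)) (by positivity)
  let u : I →₀ ℚ := Finsupp.onFinset A (fun c => if c ∈ A then q c else 0) (by simp +contextual)
  obtain ⟨i, hi⟩ : ∃ i, s.symm (u, j, i) ∉ ⋃ c ∈ A, Iic c := by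
    by_contra H
    push Not at H
    have := (A.countable_toSet.biUnion fun c _ => hc c).preimage
      (f := fun i => s.symm (u, j, i)) fun a b h => by simpa using h
    exact not_countable (countable_univ_iff.1 (this.mono fun i _ => H i))
  simp only [mem_iUnion, mem_Iic, not_exists, not_le] at hi
  set b := s.symm (u, j, i)
  have wb : ∀ c, w b c = if c ∈ A then (q c : ℝ) else 0 := fun c => by
    simp only [w, b, Equiv.apply_symm_apply, Finsupp.mapRange_apply, u, Finsupp.onFinset_apply]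
    split_ifs <;> simp
  have sb : (w b).support ⊆ A := fun c hc => by
    by_contra H
    simp [wb, H] at hc
  have e : φ b = w b := if_pos ⟨fun c hc => hi c (sb hc), by
    refine (Finset.sum_le_sum_of_subset_of_nonneg sb fun _ _ _ => abs_nonneg _).trans
      ((Finset.sum_le_sum fun c hc => ?_).trans hμ)
    rw [wb, if_pos hc]
    exact q1 c⟩
  refine ⟨b, fun h => (hi b h).false, by simp [b], fun x => ?_⟩
  rw [L_ap, e, Finset.sum_subset sb fun c _ hc => by simp [Finsupp.notMem_support_iff.1 hc],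
    ← Finset.sum_sub_distrib]
  simp only [← sub_mul]
  refine sumb (norm_nonneg x) ((Finset.sum_le_card_nsmul _ _ (δ / (A.card + 1))
    fun c hc => by rw [wb, if_pos hc]; exact q2 c).trans ?_) fun c _ => x.norm_coe_le_norm c
  rw [nsmul_eq_mul, ← mul_div_assoc, div_le_iff₀ (by positivity)]
  nlinarith

end Pool.Agent.H.MP_40d550_an
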