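import Pool.Agent.H.MP_40d550_an.B

set_option linter.unusedSectionVars false

namespace Pool.Agent.H.MP_40d550_an
open Set Filter Topology BoundedContinuousFunction Cardinal
open scoped Classical

structure Pk {I X : Type} [LinearOrder I] [NormedAddCommGroup X] [NormedSpace ℝ X] (u : I → X) :
    Prop where
  gur : ∀ (F : Type) [NormedAddCommGroup F] [NormedSpace ℝ F] [FiniteDimensional ℝ F]
    (E : Submodule ℝ F) (f : E →ₗᵢ[ℝ] X) (ε : ℝ), 0 < ε → ∃ g : F →ₗ[ℝ] X,
      (∀ x : E, g x = f x) ∧ ∀ z, (1 + ε)⁻¹ * ‖z‖ ≤ ‖g z‖ ∧ ‖g z‖ ≤ (1 + ε) * ‖z‖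
  den : Dense (Submodule.span ℝ (range u) : Set X)
  ne : ∀ a, u a ≠ 0
  sep : ∀ a b, a < b → 1 ≤ ‖u a - u b‖
  wk : ∃ rk : I → ℕ, ∀ (J : Finset I) r, (∀ a ∈ J, rk a = r) → ∀ s : I → ℝ, (∀ a, |s a| ≤ 1) →
    ‖∑ a ∈ J, s a • u a‖ ≤ 1
  pr : ∀ S : Set I, (∀ a ∉ S, ∀ b ∈ S, b < a) → ∃ P : X →L[ℝ] X, ‖P‖ ≤ 1 ∧
    ∀ a, P (u a) = if a ∈ S then u a else 0

theorem exPk (I : Type) [LinearOrder I] [WellFoundedLT I] [Uncountable I]
    (hc : ∀ a : I, (Iic a).Countable) : ∃ (X : Type) (_ : NormedAddCommGroup X)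
    (_ : NormedSpace ℝ X) (_ : CompleteSpace X) (u : I → X), Pk u := by
  letI : TopologicalSpace I := ⊥
  have : DiscreteTopology I := ⟨rfl⟩
  obtain ⟨φ, h0, hr⟩ := exRich hc
  obtain ⟨R, e, h⟩ := h0.sy
  have he : ∀ a, e a ∈ XX e := fun a => memX (A := univ) (Submodule.subset_span ⟨a, trivial, rfl⟩)
  refine ⟨XX e, inferInstance, inferInstance, inferInstance, fun a => ⟨e a, he a⟩,
    fun F _ _ _ E f ε hε => exa E f (fun δ a b => h.ag hr E f a b) hε, ?_, fun a ha => ?_,
    fun a b hab => ?_, ?_, fun S hS => ?_⟩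
  · refine Subtype.dense_iff.2 fun x hx => closure_mono ?_ hx
    change _ ⊆ ((Submodule.span ℝ _).map (XX e).subtype : Set (I →ᵇ ℝ))
    rw [Submodule.map_span, ← range_comp]
    rfl
  · have := h.e1 a
    rw [show e a = 0 from congrArg Subtype.val ha] at this
    simp at this
  · have := (e a - e b).norm_coe_le_norm a
    rw [coe_sub, Pi.sub_apply, h.e1, h.e0 b a hab] at this
    simpa using this
  · obtain ⟨rk, hrk⟩ := h0.rk
    have z : ∀ a b, b ≠ a → rk b ≤ rk a → e a b = 0 := fun a b => by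
      induction b using WellFoundedLT.induction with
      | ind b ih =>
        intro h1 h2
        rw [h.e2 a b h1, L_ap]
        refine Finset.sum_eq_zero fun c hc => mul_eq_zero_of_right _ ?_
        have := (hrk b c hc).trans_le h2
        exact ih c (h0.lt b c hc) (by rintro rfl; exact this.false) this.le
    refine ⟨rk, fun J r hJ s hs => ?_⟩
    rw [← Submodule.norm_coe, Submodule.coe_sum]
    refine (norm_le zero_le_one).2 (h0.mp (S := J) zero_le_one (fun b hb => ?_) fun b hb =>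
      h.rc (Submodule.sum_mem _ fun a ha => Submodule.smul_mem _ _
        (Submodule.subset_span ⟨a, ha, rfl⟩)) hb)
    rw [BoundedContinuousFunction.sum_apply, Finset.sum_eq_single_of_mem b hb fun a ha hab => ?_]
    · change |s b * e b b| ≤ 1
      rw [h.e1, mul_one]
      exact hs b
    · exact mul_eq_zero_of_right _ (z a b hab.symm ((hJ b hb).trans (hJ a ha).symm).le)
  · have e1 : ∀ a, R S (e a) = if a ∈ S then e a else 0 := fun a => by
      split_ifs with ha
      exacts [h.mem ha, h.nmem (hS a ha)]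
    have e2 : Submodule.span ℝ (range e) ≤
        (Submodule.span ℝ (range e)).comap (R S).toLinearMap := Submodule.span_le.2 (by
      rintro _ ⟨a, rfl⟩
      change R S (e a) ∈ Submodule.span ℝ (range e)
      rw [e1]
      split_ifs
      exacts [Submodule.subset_span ⟨a, rfl⟩, zero_mem _])
    have e3 : ∀ x ∈ XX e, R S x ∈ XX e := fun x hx =>
      map_mem_closure (R S).continuous hx fun y (hy : y ∈ Submodule.span ℝ (range e)) => e2 hy
    refine ⟨((R S).comp (XX e).subtypeL).codRestrict _ fun x => e3 x.1 x.2,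
      ContinuousLinearMap.opNorm_le_bound _ zero_le_one fun x => ?_, fun a => Subtype.ext ?_⟩
    · rw [one_mul]
      exact h.n S x
    · refine (e1 a).trans ?_
      split_ifs <;> rfl

variable {I X : Type} [LinearOrder I] [NormedAddCommGroup X] [NormedSpace ℝ X] {u : I → X}

theorem Pk.nsep (h : Pk u) [Uncountable I] : ¬ TopologicalSpace.SeparableSpace X := fun _ => by
  have : Pairwise (Function.onFun Disjoint fun a => Metric.ball (u a) (1 / 2)) := fun a b hab =>
    Metric.ball_disjoint_ball (by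
      rw [add_halves]
      rcases hab.lt_or_gt with H | H
      · rw [dist_eq_norm]
        exact h.sep a b H
      · rw [dist_comm, dist_eq_norm]
        exact h.sep b a H)
  exact not_countable (this.countable_of_isOpen_disjoint (fun _ => Metric.isOpen_ball)
    fun _ => Metric.nonempty_ball.2 (by norm_num))

theorem Pk.wn (h : Pk u) : ∃ w : I → X, Dense (Submodule.span ℝ (range w) : Set X) ∧
    ∀ φ : X →L[ℝ] ℝ, Tendsto (fun a => φ (w a)) cofinite (𝓝 0) := by
  obtain ⟨rk, hr⟩ := h.wk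
  refine ⟨fun a => ((rk a : ℝ) + 1)⁻¹ • u a, h.den.mono (Submodule.span_le.2 ?_), fun φ => ?_⟩
  · rintro _ ⟨a, rfl⟩
    have := (Submodule.span ℝ (range fun a => ((rk a : ℝ) + 1)⁻¹ • u a)).smul_mem
      ((rk a : ℝ) + 1) (Submodule.subset_span ⟨a, rfl⟩)
    rwa [smul_inv_smul₀ (by positivity)] at this
  have b : ∀ r (J : Finset I), ∑ a ∈ J, (if rk a = r then |φ (u a)| else 0) ≤ ‖φ‖ := fun r J => by
    have := (φ.le_opNorm _).trans (mul_le_of_le_one_right (norm_nonneg _)
      (hr (J.filter (rk · = r)) r (by simp) (fun a => SignType.sign (φ (u a))) fun a => sg _))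
    rw [map_sum] at this
    simp only [map_smul, smul_eq_mul, sign_mul_self] at this
    rw [← Finset.sum_filter]
    exact (le_abs_self _).trans this
  refine Metric.tendsto_nhds.2 fun ε hε => ?_
  obtain ⟨N, hN⟩ := exists_nat_gt (‖φ‖ / ε)
  filter_upwards [(Finset.range N).eventually_all.2 fun r _ => (summable_of_sum_le
    (fun a => by positivity) (b r)).tendsto_cofinite_zero.eventually_lt_const hε] with a ha
  have p : (0 : ℝ) < rk a + 1 := by positivity
  rw [dist_zero_right, map_smul, norm_smul, norm_inv, Real.norm_of_nonneg p.le,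
    inv_mul_lt_iff₀ p, Real.norm_eq_abs]
  rcases lt_or_ge (rk a) N with H | H
  · have := ha _ (Finset.mem_range.2 H)
    rw [if_pos rfl] at this
    nlinarith [Nat.cast_nonneg (α := ℝ) (rk a)]
  · have a1 := b (rk a) {a}
    have a2 : (N : ℝ) ≤ rk a := Nat.cast_le.2 H
    rw [div_lt_iff₀ hε] at hN
    simp only [Finset.sum_singleton, if_true] at a1
    nlinarith

theorem Pk.wcg (h : Pk u) : (∃ K : Set X, IsCompact (toWeakSpace ℝ X '' K) ∧
    Dense (Submodule.span ℝ K : Set X)) ∧ ∃ (Γ : Type) (T : WeakDual ℝ X →L[ℝ] (Γ → ℝ)),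
    Function.Injective T ∧ ∀ φ, (Function.support (T φ)).Countable := by
  obtain ⟨w, h1, h2⟩ := h.wn
  refine ⟨⟨insert 0 (range w), ?_, h1.mono (Submodule.span_mono (subset_insert _ _))⟩, I,
    ⟨⟨⟨fun φ a => φ (w a), fun _ _ => rfl⟩, fun _ _ => rfl⟩,
      continuous_pi fun a => WeakDual.eval_continuous _⟩, fun φ ψ e => ?_, fun φ => ?_⟩
  · rw [image_insert_eq, ← range_comp]
    refine Tendsto.isCompact_insert_range_of_cofinite ?_
    have : IsInducing fun (x : WeakSpace ℝ X) (φ : X →L[ℝ] ℝ) => φ x := ⟨rfl⟩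
    rw [this.tendsto_nhds_iff, tendsto_pi_nhds]
    intro φ
    have := h2 φ
    rw [← φ.map_zero] at this
    exact this
  · refine ContinuousLinearMap.ext_on h1 ?_
    rintro _ ⟨a, rfl⟩
    exact congrFun e a
  · have := (h2 φ).countable_compl_preimage_ker
    rw [ker_nhds] at this
    exact this

theorem Pk.dens (h : Pk u) (hI : #I = ℵ₁) : IsLeast {κ | ∃ D : Set X, Dense D ∧ #D = κ} ℵ₁ := by
  have : Uncountable I := aleph0_lt_mk_iff.1 (hI ▸ aleph0_lt_aleph_one)
  have lb : ∀ D : Set X, Dense D → ℵ₁ ≤ #D := fun D hD => by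
    by_contra H
    exact h.nsep ⟨D, (countable_iff_lt_aleph_one D).2 (not_le.1 H), hD⟩
  choose c c1 c2 using fun A : Finset I =>
    ((A.finite_toSet.image u).countable.isSeparable.span (R := ℝ))
  have hD : Dense (⋃ A, c A) := by
    refine dense_closure.1 (h.den.mono fun y hy => ?_)
    obtain ⟨T, t1, t2⟩ := Submodule.mem_span_finite_of_mem_span hy
    obtain ⟨A, -, rfl⟩ := Finset.subset_set_image_iff.1 (t1.trans_eq image_univ.symm)
    exact closure_mono (subset_iUnion c A) (c2 A (by simpa using t2))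
  refine ⟨⟨_, hD, le_antisymm ((mk_iUnion_le _).trans ?_) (lb _ hD)⟩, ?_⟩
  · rw [mk_finset_of_infinite, hI]
    exact (mul_le_mul' le_rfl (ciSup_le' fun A => (le_aleph0_iff_set_countable.2 (c1 A)).trans
      aleph0_lt_aleph_one.le)).trans (mul_eq_self aleph0_lt_aleph_one.le).le
  · rintro _ ⟨D, hD, rfl⟩
    exact lb D hD

theorem main : ∃ (X : Type) (_ : NormedAddCommGroup X) (_ : NormedSpace ℝ X)
    (_ : CompleteSpace X) (u : (ℵ₁ : Cardinal.{0}).ord.ToType → X), Pk u := by
  have : Uncountable (ℵ₁ : Cardinal.{0}).ord.ToType :=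
    aleph0_lt_mk_iff.1 (by simp)
  refine exPk _ fun a => ?_
  rw [← Iio_insert]
  exact ((countable_iff_lt_aleph_one _).2 (by simpa using mk_Iio_lt a)).insert a

theorem Pk.basis {l : Ordinal.{0}} {u : l.ToType → X} (h : Pk u) :
    ∃ (e : Iio l → X) (P : Ordinal.{0} → X →L[ℝ] X), (∀ a, e a ≠ 0) ∧
      Dense (Submodule.span ℝ (range e) : Set X) ∧
      (∀ β ≤ l, ‖P β‖ ≤ 1 ∧ (∀ x, P β (P β x) = P β x) ∧
        ∀ a : Iio l, (a.1 < β → P β (e a) = e a) ∧ (β ≤ a.1 → P β (e a) = 0)) ∧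
      (∀ x, P l x = x) ∧ ∀ x, ContinuousOn (fun β => P β x) (Iic l) := by
  choose P p1 p2 using fun β : Ordinal.{0} => h.pr {a | a.toOrd.1 < β} fun a ha b hb =>
    Ordinal.ToType.mk.symm.lt_iff_lt.1
      (show b.toOrd.1 < a.toOrd.1 from lt_of_lt_of_le hb (not_lt.1 ha))
  have ex : ∀ {A B : X →L[ℝ] X}, (∀ a, A (u a) = B (u a)) → ∀ x, A x = B x := fun e =>
    DFunLike.congr_fun (ContinuousLinearMap.ext_on h.den (by rintro _ ⟨a, rfl⟩; exact e a))
  refine ⟨fun a => u (Ordinal.ToType.mk a), P, fun a => h.ne _, ?_, fun β _ => ⟨p1 β,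
    ex (A := (P β).comp (P β)) fun a => ?_, fun a => ⟨fun H => ?_, fun H => ?_⟩⟩,
    ex (B := .id ℝ X) fun a => ?_, fun x => Continuous.continuousOn ?_⟩
  · have := h.den
    rwa [← Ordinal.ToType.mk.surjective.range_comp u] at this
  · rw [ContinuousLinearMap.comp_apply, p2]
    split_ifs with H
    · rw [p2, if_pos H]
    · exact map_zero _
  · rw [p2, if_pos (by simpa using H)]
  · rw [p2, if_neg (by simpa using H)]
  · rw [p2]
    exact if_pos a.toOrd.2
  have cl : IsClosed {x : X | Continuous fun β => P β x} := by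
    refine isClosed_of_closure_subset fun x hx => continuous_of_uniform_approx_of_continuous
      fun V hV => ?_
    obtain ⟨ε, hε, hV⟩ := Metric.mem_uniformity_dist.1 hV
    obtain ⟨y, hy, hd⟩ := Metric.mem_closure_iff.1 hx ε hε
    refine ⟨_, hy, fun β => hV ?_⟩
    rw [dist_eq_norm] at hd ⊢
    rw [← map_sub]
    exact (((P β).le_opNorm _).trans (mul_le_of_le_one_left (norm_nonneg _) (p1 β))).trans_lt hd
  refine cl.closure_subset_iff.2 (fun y hy => ?_) (h.den x)
  induction hy using Submodule.span_induction with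
  | mem x hx =>
    obtain ⟨a, rfl⟩ := hx
    simp only [mem_ofPred_eq, p2]
    refine IsLocallyConstant.continuous ((IsLocallyConstant.iff_exists_open _).2 fun β => ?_)
    by_cases H : a.toOrd.1 < β
    · exact ⟨Ioi a.toOrd.1, isOpen_Ioi, H, fun γ (hγ : _ < γ) => by rw [if_pos H, if_pos hγ]⟩
    · exact ⟨Iio (Order.succ a.toOrd.1), isOpen_Iio, Order.lt_succ_iff.2 (not_lt.1 H),
        fun γ hγ => by rw [if_neg H, if_neg (Order.lt_succ_iff.1 hγ).not_gt]⟩
  | zero => simpa using continuous_const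
  | add x y _ _ h1 h2 => simpa using Continuous.fun_add h1 h2
  | smul c x _ h1 => simpa using Continuous.fun_const_smul h1 c

end Pool.Agent.H.MP_40d550_an
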